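import Mathlib
import Pool.Agent.H88.Fp4
import Pool.Agent.H88.FpDefs

open Pool.Agent.H88.Fp

theorem Pool.Agent.Results.MP_80c44a_an.Yes.result (p : ℝ) (hp : 0 < p) (hp1 : p < 1)
    (M X : Type) [MetricSpace M] [CompleteSpace M] [DiscreteTopology M]
    (hM : Bornology.IsBounded (Set.univ : Set M)) (o : M) [AddCommGroup X] [Module ℝ X]
    (ν : X → ℝ) (δ : M → X) (h : IsFree ℝ p o ν δ) : SchurP ℝ p ν := by
  letI := nacg h.banach hp
  exact schur_nu h hp hp1.le (fun _ => rfl) hM
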